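import Mathlib
import Pool.Agent.Helper69.DC.Goals2
import Pool.Agent.Helper85.DC.CNT

/-!
Packet DC-CNTR: the count with the rank.
-/

namespace Pool.Agent.Helper46.DC

open MvPolynomial Finset ComplexConjugate
open Pool.Agent.Helper69.DC Pool.Agent.Helper85.DC

section poly

variable {m N : ℕ}

/-- If the vectors `A_(idx j)(v₀)` are independent, there is a polynomial `P ≠ 0` such that the
vectors `A_(idx j)(v)` are independent whenever `P(v) ≠ 0`. -/
lemma exists_det' {ι : Type} [Fintype ι] [DecidableEq ι] (idx : ι → ℕ)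
    (f : Fin (N + 1) → MvPolynomial (Fin m ⊕ Unit) ℂ)
    (β : Fin m → ℂ) (a : ℂ) (v₀ : Fin m → ℂ)
    (h : LinearIndependent ℂ (fun j : ι => AJ f β a v₀ (idx j))) :
    ∃ P : MvPolynomial (Fin m) ℂ, P ≠ 0 ∧ ∀ v : Fin m → ℂ, MvPolynomial.eval v P ≠ 0 →
      LinearIndependent ℂ (fun j : ι => AJ f β a v (idx j)) := by
  have hinj := linearIndependent_iff_injective_fintypeLinearCombination.mp h
  obtain ⟨π, hπ⟩ := LinearMap.exists_leftInverse_of_injective
    (Fintype.linearCombination ℂ (fun j : ι => AJ f β a v₀ (idx j)))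
    (LinearMap.ker_eq_bot.mpr hinj)
  have hπ1 : ∀ j : ι, π (AJ f β a v₀ (idx j)) = Pi.single j 1 := by
    intro j
    have := congrArg (fun T : (ι → ℂ) →ₗ[ℂ] (ι → ℂ) => T (Pi.single j 1)) hπ
    simpa [Fintype.linearCombination_apply_single] using this
  let M : Matrix ι ι (MvPolynomial (Fin m) ℂ) :=
    Matrix.of fun i j => ∑ k, (laP f β a k).coeff (idx j) *
      MvPolynomial.C (π (fun l => if k = l then 1 else 0) i)
  have hM : ∀ v : Fin m → ℂ, MvPolynomial.eval v M.det =
      (Matrix.of fun i j : ι => π (AJ f β a v (idx j)) i).det := by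
    intro v
    rw [RingHom.map_det]
    congr 1
    ext i j
    simp only [M, RingHom.mapMatrix_apply, Matrix.map_apply, Matrix.of_apply, map_sum, map_mul,
      MvPolynomial.eval_C, ← AJ_eq_eval]
    rw [LinearMap.pi_apply_eq_sum_univ π (AJ f β a v (idx j))]
    simp [Finset.sum_apply]
  refine ⟨M.det, ?_, ?_⟩
  · intro h0
    have h1 := hM v₀
    rw [h0, map_zero] at h1
    have h2 : (Matrix.of fun i j : ι => π (AJ f β a v₀ (idx j)) i) = 1 := by
      ext i j
      rw [Matrix.of_apply, hπ1, Matrix.one_apply, Pi.single_apply]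
    rw [h2, Matrix.det_one] at h1
    exact zero_ne_one h1
  · intro v hv
    rw [hM] at hv
    have h3 := Matrix.linearIndependent_cols_of_det_ne_zero hv
    exact LinearIndependent.of_comp π h3

end poly

/-- **H_CNTR**. -/
theorem h_cntr (h1 : Pool.Agent.Helper69.DC.G_HF2) (h2 : Pool.Agent.Helper69.DC.G_AJO)
    (h3 : Pool.Agent.Helper69.DC.G_OB) : Pool.Agent.Helper69.DC.H_CNTR := by
  classical
  intro m N d f hS β a hnull hA0 v₀
  obtain ⟨hort, hAz, hA0v, -, -⟩ := h2 m N d f hS β a hnull
  -- the index set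
  set V : Fin (d + 1) → Fin (N + 1) → ℂ := fun j => AJ f β a v₀ j with hV
  have hV0 : V 0 ≠ 0 := by
    have : V 0 = fv f β a := hA0v v₀
    rw [this]
    exact hA0
  obtain ⟨b, -, h0b, hspan, hbind⟩ := exists_linearIndepOn_extension (K := ℂ) (v := V)
    (s := {0}) (t := Set.univ) ((linearIndepOn_singleton_iff ℂ).2 hV0) (Set.subset_univ _)
  have h0 : (0 : Fin (d + 1)) ∈ b := h0b rfl
  let J : Type := {j : Fin (d + 1) // j ∈ b ∧ j ≠ 0}
  let idx : Option J → ℕ := fun o => Option.elim o 0 (fun j => (j.1 : ℕ))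
  have hfam : LinearIndependent ℂ (fun o : Option J => AJ f β a v₀ (idx o)) := by
    have hcomp := hbind.comp (fun o : Option J =>
      (Option.elim o ⟨0, h0⟩ (fun j => ⟨j.1, j.2.1⟩) : b)) (by
        rintro (_ | x) (_ | y) hxy
        · rfl
        · exact absurd (congrArg Subtype.val hxy).symm y.2.2
        · exact absurd (congrArg Subtype.val hxy) x.2.2
        · have h5 : (⟨x.1, x.2.1⟩ : b) = ⟨y.1, y.2.1⟩ := hxy
          have h6 : x.1 = y.1 := congrArg (fun z : b => z.1) h5
          rw [Subtype.ext h6])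
    have hfe : (fun o : Option J => AJ f β a v₀ (idx o)) = (fun x : b => V x) ∘
        (fun o : Option J => (Option.elim o ⟨0, h0⟩ (fun j => ⟨j.1, j.2.1⟩) : b)) := by
      funext o
      rcases o with _ | x
      · rfl
      · rfl
    rw [hfe]
    exact hcomp
  have hrange : Submodule.span ℂ (Set.range V) =
      Submodule.span ℂ (Set.range fun o : Option J => AJ f β a v₀ (idx o)) := by
    apply le_antisymm
    · rw [Submodule.span_le]
      rintro _ ⟨j, rfl⟩
      have h5 : V j ∈ Submodule.span ℂ (V '' b) := hspan ⟨j, Set.mem_univ _, rfl⟩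
      refine Submodule.span_mono ?_ h5
      rintro _ ⟨i, hi, rfl⟩
      by_cases hi0 : i = 0
      · subst hi0
        exact ⟨none, rfl⟩
      · exact ⟨some ⟨i, hi, hi0⟩, rfl⟩
    · apply Submodule.span_mono
      rintro _ ⟨o, rfl⟩
      rcases o with _ | x
      · exact ⟨0, rfl⟩
      · exact ⟨x.1, rfl⟩
  have hr : Module.finrank ℂ (Submodule.span ℂ (Set.range V)) = Fintype.card J + 1 := by
    rw [hrange, finrank_span_eq_card hfam, Fintype.card_option]
  change m * (Module.finrank ℂ (Submodule.span ℂ (Set.range V)) - 1) + 1 ≤ N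
  rw [hr, Nat.add_sub_cancel]
  obtain ⟨P, hP0, hP⟩ := exists_det' idx f β a v₀ hfam
  obtain ⟨e, he, -, hPe⟩ := h3 m P hP0
  have hinde : ∀ i, LinearIndependent ℂ (fun o : Option J => AJ f β a (e i) (idx o)) :=
    fun i => hP _ (hPe i)
  set A0 := fv f β a with hA0d
  have hA00 : hf A0 A0 = 0 := hS.orth β a β a hnull
  -- the family
  let F : Option (Fin m × J) → Fin (N + 1) → ℂ :=
    fun o => Option.elim o A0 (fun p => AJ f β a (e p.1) (p.2.1 : ℕ))
  have hFk : ∀ o, hl A0 (F o) = 0 := by
    rintro (_ | p)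
    · exact hA00
    · exact hAz _ _
  have hF : LinearIndependent ℂ F := by
    rw [Fintype.linearIndependent_iff]
    intro g hg
    rw [Fintype.sum_option, Fintype.sum_prod_type] at hg
    simp only [F, Option.elim] at hg
    set w : Fin m → Fin (N + 1) → ℂ :=
      fun i => ∑ j : J, g (some (i, j)) • AJ f β a (e i) (j.1 : ℕ) with hw
    have hwl : ∀ i l, i ≠ l → hf (w i) (w l) = 0 := by
      intro i l hil
      rw [hw]
      simp only []
      rw [hf_sum_left]
      refine Finset.sum_eq_zero fun x _ => ?_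
      rw [hf_smul_left, hf_sum_right]
      refine mul_eq_zero_of_right _ (Finset.sum_eq_zero fun y _ => ?_)
      rw [hf_smul_right, hort (e i) (e l) (he i l hil), mul_zero]
    have hwA : ∀ i, hf (w i) A0 = 0 := by
      intro i
      rw [hw]
      simp only []
      rw [hf_sum_left]
      refine Finset.sum_eq_zero fun x _ => ?_
      rw [hf_smul_left, hAz, mul_zero]
    have hsum : ∑ i, w i = (-g none) • A0 := by
      rw [neg_smul]
      exact eq_neg_of_add_eq_zero_right hg
    have hww : ∀ i, hf (w i) (w i) = 0 := by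
      intro i
      have h4 : hf (w i) (∑ l, w l) = hf (w i) (w i) := by
        rw [hf_sum_right, Finset.sum_eq_single i]
        · intro l _ hl
          exact hwl i l (Ne.symm hl)
        · intro h
          exact absurd (Finset.mem_univ i) h
      rw [← h4, hsum, hf_smul_right, hwA, mul_zero]
    have hgi : ∀ i j, g (some (i, j)) = 0 := by
      intro i
      obtain ⟨c, hc⟩ := h1 N A0 (w i) hA0 hA00 (hww i) (hwA i)
      have h5 := (Fintype.linearIndependent_iff.mp (hinde i))
        (fun o => Option.elim o (-c) fun j => g (some (i, j))) (by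
          rw [Fintype.sum_option]
          simp only [Option.elim, idx]
          rw [hA0v]
          change (-c) • A0 + w i = 0
          rw [hc, neg_smul, neg_add_cancel])
      intro j
      exact h5 (some j)
    have hw0 : ∀ i, w i = 0 := by
      intro i
      rw [hw]
      simp only []
      exact Finset.sum_eq_zero fun j _ => by rw [hgi, zero_smul]
    have hg0 : g none = 0 := by
      have h6 : (-g none) • A0 = 0 := by
        rw [← hsum]
        exact Finset.sum_eq_zero fun i _ => hw0 i
      rcases smul_eq_zero.mp h6 with h7 | h7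
      · exact neg_eq_zero.mp h7
      · exact absurd h7 hA0
    rintro (_ | ⟨i, j⟩)
    · exact hg0
    · exact hgi i j
  -- dimension count
  have hne : hl A0 ≠ 0 := hl_ne_zero A0 hA0
  have hrng : LinearMap.range (hl A0) = ⊤ := LinearMap.range_eq_top.mpr (LinearMap.surjective hne)
  have hdim := LinearMap.finrank_range_add_finrank_ker (hl A0)
  rw [hrng, finrank_top, Module.finrank_self, Module.finrank_fin_fun] at hdim
  have hFker : LinearIndependent ℂ (fun o => (⟨F o, hFk o⟩ : LinearMap.ker (hl A0))) :=
    LinearIndependent.of_comp (LinearMap.ker (hl A0)).subtype hF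
  have hcard := hFker.fintype_card_le_finrank
  rw [Fintype.card_option, Fintype.card_prod, Fintype.card_fin] at hcard
  omega

end Pool.Agent.Helper46.DC
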